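import Pool.Agent.Helper70.RN.Sheet

/-! Row R9. -/

set_option autoImplicit false

namespace Pool.Helper70.RN

namespace S53

open Polynomial Pool.Helper70.RT

def M0 : Matrix (Fin 7) (Fin 7) ℤ :=
  !![5334016, -77568, -2880, 48, 0, 0, 0; 0, 5334016, -77568, -2880, 48, 0, 0; 0, 0, 5334016, -77568, -2880, 48, 0; 0, 0, 0, 5334016, -77568, -2880, 48; -78662991872, 5907677184, -177389568, 2506752, -13824, 0, 0; 0, -78662991872, 5907677184, -177389568, 2506752, -13824, 0; 0, 0, -78662991872, 5907677184, -177389568, 2506752, -13824]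

def M5 : Matrix (Fin 7) (Fin 7) (ZMod 5) :=
  !![1, 2, 0, 3, 0, 0, 0; 0, 1, 2, 0, 3, 0, 0; 0, 0, 1, 2, 0, 3, 0; 0, 0, 0, 1, 2, 0, 3; 3, 4, 2, 2, 1, 0, 0; 0, 3, 4, 2, 2, 1, 0; 0, 0, 3, 4, 2, 2, 1]

def N5 : Matrix (Fin 7) (Fin 7) (ZMod 5) :=
  !![3, 1, 4, 0, 1, 3, 0; 0, 3, 1, 4, 0, 1, 3; 3, 4, 0, 3, 4, 3, 1; 1, 1, 3, 4, 3, 0, 3; 3, 0, 3, 0, 4, 1, 0; 0, 3, 0, 3, 0, 4, 1; 1, 3, 2, 4, 3, 1, 4]

lemma pIv : pI vb = C (48) * X ^ 3 + C (-2880) * X ^ 2 + C (-77568) * X + C (5334016) := by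
  have e0 : vb 0 = 1 := rfl
  have e1 : vb 1 = 1 := rfl
  have e2' : vb 2 = 1 := rfl
  have e3' : vb 3 = 0 := rfl
  unfold pI fI RN.q4 RN.q3 RN.q2 RN.q1 RN.q0 RN.h3 RN.h2 RN.h1 RN.h0 d0 l1 RN.g0 RN.e3 RN.e2 cc pr m2 m1 n2 n1
  simp only [e0, e1, e2', e3', map_zero, map_one, map_neg, map_ofNat]
  ring

lemma pJv : pJ vb = C (-13824) * X ^ 4 + C (2506752) * X ^ 3 + C (-177389568) * X ^ 2 + C (5907677184) * X + C (-78662991872) := by
  have e0 : vb 0 = 1 := rfl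
  have e1 : vb 1 = 1 := rfl
  have e2' : vb 2 = 1 := rfl
  have e3' : vb 3 = 0 := rfl
  unfold pJ fJ RN.q4 RN.q3 RN.q2 RN.q1 RN.q0 RN.h3 RN.h2 RN.h1 RN.h0 d0 l1 RN.g0 RN.e3 RN.e2 cc pr m2 m1 n2 n1
  simp only [e0, e1, e2', e3', map_zero, map_one, map_neg, map_ofNat]
  ring

lemma cI (k : ℕ) : (pI vb).coeff k = (if k = 3 then 48 else 0) + (if k = 2 then -2880 else 0) +
    (if k = 1 then -77568 else 0) + (if k = 0 then 5334016 else 0) := by
  rw [pIv]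
  simp only [coeff_add, coeff_C_mul, coeff_X_pow, coeff_X, coeff_C, mul_ite, mul_one, mul_zero,
    eq_comm (a := 1) (b := k)]

lemma cJ (k : ℕ) : (pJ vb).coeff k = (if k = 4 then -13824 else 0) +
    (if k = 3 then 2506752 else 0) + (if k = 2 then -177389568 else 0) +
    (if k = 1 then 5907677184 else 0) + (if k = 0 then -78662991872 else 0) := by
  rw [pJv]
  simp only [coeff_add, coeff_C_mul, coeff_X_pow, coeff_X, coeff_C, mul_ite, mul_one, mul_zero,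
    eq_comm (a := 1) (b := k)]

lemma sylM0 : syl (pI vb) (pJ vb) = M0 := by
  ext i j
  unfold syl M0
  simp only [Matrix.of_apply, cI, cJ]
  fin_cases i <;> fin_cases j <;> rfl

lemma mapM0 : M0.map (Int.castRingHom (ZMod 5)) = M5 := by
  ext i j
  fin_cases i <;> fin_cases j <;> decide

lemma mulN5 : M5 * N5 = 1 := by decide +kernel

end S53

theorem st_R9 : ST_R9 := by
  intro h
  unfold Ru at h
  rw [S53.sylM0] at h
  have h1 : (S53.M5).det = 0 := by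
    rw [← S53.mapM0, ← RingHom.mapMatrix_apply, ← RingHom.map_det, h, map_zero]
  have h2 : (S53.M5 * S53.N5).det = 1 := by rw [S53.mulN5, Matrix.det_one]
  rw [Matrix.det_mul, h1, zero_mul] at h2
  exact absurd h2 (by decide)

end Pool.Helper70.RN
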