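import Pool.Agent.Helper70.RN.Sheet
import Pool.Agent.Helper25.RN.BND
import Pool.Agent.Helper53.RN.R9

/-! Row RNZ. -/

set_option autoImplicit false

namespace Pool.Helper70.RN

namespace S53

open Polynomial Pool.Helper70.RT Pool.Helper70.RN.S25

section
variable {R S : Type*} [CommRing R] [CommRing S] (φ : R →+* S) (u : Fin 4 → R)

lemma na_n1 : n1 (fun i => φ (u i)) = φ (n1 u) := by simp [map_ofNat, n1]
lemma na_n2 : n2 (fun i => φ (u i)) = φ (n2 u) := by simp [map_ofNat, n2]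
lemma na_m1 : m1 (fun i => φ (u i)) = φ (m1 u) := by simp [map_ofNat, m1]
lemma na_m2 : m2 (fun i => φ (u i)) = φ (m2 u) := by simp [map_ofNat, m2]
lemma na_pr : pr (fun i => φ (u i)) = φ (pr u) := by simp [map_ofNat, pr]
lemma na_cc : cc (fun i => φ (u i)) = φ (cc u) := by simp [map_ofNat, cc, na_n1, na_n2]
lemma na_e2 : RN.e2 (fun i => φ (u i)) = φ (RN.e2 u) := by simp [map_ofNat, RN.e2, na_n1, na_n2]
lemma na_e3 : RN.e3 (fun i => φ (u i)) = φ (RN.e3 u) := by simp [map_ofNat, RN.e3, na_cc, na_pr]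
lemma na_g0 : RN.g0 (fun i => φ (u i)) = φ (RN.g0 u) := by
  simp [map_ofNat, RN.g0, na_n1, na_n2, na_m1, na_m2]
lemma na_l1 : l1 (fun i => φ (u i)) = φ (l1 u) := by simp [map_ofNat, l1, na_n1, na_n2]
lemma na_d0 : d0 (fun i => φ (u i)) = φ (d0 u) := by
  simp [map_ofNat, d0, na_n1, na_n2, na_m1, na_m2, na_cc, na_pr]
lemma na_h3 : RN.h3 (fun i => φ (u i)) = φ (RN.h3 u) := by
  simp [map_ofNat, RN.h3, na_d0, na_cc, na_l1, na_e2, na_e3]
lemma na_h2 : RN.h2 (fun i => φ (u i)) = φ (RN.h2 u) := by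
  simp [map_ofNat, RN.h2, na_d0, na_cc, na_l1, na_e2, na_e3, na_g0]
lemma na_h1 : RN.h1 (fun i => φ (u i)) = φ (RN.h1 u) := by
  simp [map_ofNat, RN.h1, na_d0, na_cc, na_l1, na_e3, na_g0]
lemma na_h0 : RN.h0 (fun i => φ (u i)) = φ (RN.h0 u) := by
  simp [map_ofNat, RN.h0, na_d0, na_cc, na_g0]
end

section
variable {R : Type*} [CommRing R]

def kI (u : Fin 4 → R) (k : ℕ) : R :=
  if k = 3 then 48 else if k = 2 then 96 * RN.g0 u + 4 * RN.e2 u ^ 2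
  else if k = 1 then 48 * RN.h0 u + 6 * RN.h3 u * RN.e3 u + 4 * RN.e2 u * RN.h2 u
  else if k = 0 then -3 * RN.h3 u * RN.h1 u + RN.h2 u ^ 2 else 0

def kJ (u : Fin 4 → R) (k : ℕ) : R :=
  if k = 4 then 576 * RN.e2 u
  else if k = 3 then 288 * RN.h2 u + 1152 * RN.e2 u * RN.g0 u - 432 * RN.e3 u ^ 2 - 16 * RN.e2 u ^ 3
  else if k = 2 then 288 * (2 * RN.e2 u * RN.h0 u + 2 * RN.g0 u * RN.h2 u) -
    36 * RN.h3 u * RN.e2 u * RN.e3 u + 432 * RN.e3 u * RN.h1 u - 27 * RN.h3 u ^ 2 -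
    24 * RN.e2 u ^ 2 * RN.h2 u
  else if k = 1 then 288 * RN.h2 u * RN.h0 u +
    9 * RN.h3 u * (2 * RN.e2 u * RN.h1 u - 2 * RN.e3 u * RN.h2 u) - 108 * RN.h1 u ^ 2 -
    54 * RN.g0 u * RN.h3 u ^ 2 - 12 * RN.e2 u * RN.h2 u ^ 2
  else if k = 0 then 9 * RN.h3 u * RN.h2 u * RN.h1 u - 27 * RN.h0 u * RN.h3 u ^ 2 -
    2 * RN.h2 u ^ 3 else 0

lemma pI_eq (u : Fin 4 → R) : pI u = C (kI u 3) * X ^ 3 + C (kI u 2) * X ^ 2 + C (kI u 1) * X +
    C (kI u 0) := by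
  unfold pI RN.fI RN.q4 RN.q3 RN.q2 RN.q1 RN.q0
  simp only [na_e2 C u, na_e3 C u, na_g0 C u, na_h3 C u, na_h2 C u, na_h1 C u, na_h0 C u]
  have k3 : kI u 3 = 48 := rfl
  have k2 : kI u 2 = 96 * RN.g0 u + 4 * RN.e2 u ^ 2 := rfl
  have k1 : kI u 1 = 48 * RN.h0 u + 6 * RN.h3 u * RN.e3 u + 4 * RN.e2 u * RN.h2 u := rfl
  have k0 : kI u 0 = -3 * RN.h3 u * RN.h1 u + RN.h2 u ^ 2 := rfl
  rw [k3, k2, k1, k0]
  simp only [map_add, map_mul, map_pow, map_neg, map_ofNat]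
  generalize C (RN.e2 u) = E2, C (RN.e3 u) = E3, C (RN.g0 u) = G0, C (RN.h3 u) = H3,
    C (RN.h2 u) = H2, C (RN.h1 u) = H1, C (RN.h0 u) = H0
  ring

lemma pJ_eq (u : Fin 4 → R) : pJ u = C (kJ u 4) * X ^ 4 + C (kJ u 3) * X ^ 3 + C (kJ u 2) * X ^ 2 +
    C (kJ u 1) * X + C (kJ u 0) := by
  unfold pJ RN.fJ RN.q4 RN.q3 RN.q2 RN.q1 RN.q0
  simp only [na_e2 C u, na_e3 C u, na_g0 C u, na_h3 C u, na_h2 C u, na_h1 C u, na_h0 C u]
  have k4 : kJ u 4 = 576 * RN.e2 u := rfl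
  have k3 : kJ u 3 = 288 * RN.h2 u + 1152 * RN.e2 u * RN.g0 u - 432 * RN.e3 u ^ 2 -
    16 * RN.e2 u ^ 3 := rfl
  have k2 : kJ u 2 = 288 * (2 * RN.e2 u * RN.h0 u + 2 * RN.g0 u * RN.h2 u) -
    36 * RN.h3 u * RN.e2 u * RN.e3 u + 432 * RN.e3 u * RN.h1 u - 27 * RN.h3 u ^ 2 -
    24 * RN.e2 u ^ 2 * RN.h2 u := rfl
  have k1 : kJ u 1 = 288 * RN.h2 u * RN.h0 u +
    9 * RN.h3 u * (2 * RN.e2 u * RN.h1 u - 2 * RN.e3 u * RN.h2 u) - 108 * RN.h1 u ^ 2 -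
    54 * RN.g0 u * RN.h3 u ^ 2 - 12 * RN.e2 u * RN.h2 u ^ 2 := rfl
  have k0 : kJ u 0 = 9 * RN.h3 u * RN.h2 u * RN.h1 u - 27 * RN.h0 u * RN.h3 u ^ 2 -
    2 * RN.h2 u ^ 3 := rfl
  rw [k4, k3, k2, k1, k0]
  simp only [map_add, map_sub, map_mul, map_pow, map_neg, map_ofNat]
  generalize C (RN.e2 u) = E2, C (RN.e3 u) = E3, C (RN.g0 u) = G0, C (RN.h3 u) = H3,
    C (RN.h2 u) = H2, C (RN.h1 u) = H1, C (RN.h0 u) = H0
  ring

lemma coI (u : Fin 4 → R) (k : ℕ) : (pI u).coeff k = kI u k := by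
  rw [pI_eq]
  simp only [coeff_add, coeff_C_mul, coeff_X_pow, coeff_X, coeff_C, mul_ite, mul_one, mul_zero]
  by_cases h3 : k = 3
  · subst h3; simp
  by_cases h2 : k = 2
  · subst h2; simp
  by_cases h1 : k = 1
  · subst h1; simp
  by_cases h0 : k = 0
  · subst h0; simp
  · have : ¬ 1 = k := fun h => h1 h.symm
    simp [h3, h2, this, h0, kI, h1]

lemma coJ (u : Fin 4 → R) (k : ℕ) : (pJ u).coeff k = kJ u k := by
  rw [pJ_eq]
  simp only [coeff_add, coeff_C_mul, coeff_X_pow, coeff_X, coeff_C, mul_ite, mul_one, mul_zero]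
  by_cases h4 : k = 4
  · subst h4; simp
  by_cases h3 : k = 3
  · subst h3; simp
  by_cases h2 : k = 2
  · subst h2; simp
  by_cases h1 : k = 1
  · subst h1; simp
  by_cases h0 : k = 0
  · subst h0; simp
  · have : ¬ 1 = k := fun h => h1 h.symm
    simp [h4, h3, h2, this, h0, kJ, h1]

lemma na_kI {S : Type*} [CommRing S] (φ : R →+* S) (u : Fin 4 → R) (k : ℕ) :
    kI (fun i => φ (u i)) k = φ (kI u k) := by
  unfold kI
  rw [na_e2, na_e3, na_g0, na_h3, na_h2, na_h1, na_h0]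
  split_ifs <;> simp [map_ofNat]

lemma na_kJ {S : Type*} [CommRing S] (φ : R →+* S) (u : Fin 4 → R) (k : ℕ) :
    kJ (fun i => φ (u i)) k = φ (kJ u k) := by
  unfold kJ
  rw [na_e2, na_e3, na_g0, na_h3, na_h2, na_h1, na_h0]
  split_ifs <;> simp [map_ofNat]

lemma na_Ru {S : Type*} [CommRing S] (φ : R →+* S) (u : Fin 4 → R) :
    Ru (fun i => φ (u i)) = φ (Ru u) := by
  unfold Ru
  rw [RingHom.map_det]
  congr 1
  ext i j
  rw [RingHom.mapMatrix_apply, Matrix.map_apply]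
  unfold syl
  simp only [Matrix.of_apply, coI, coJ, na_kI, na_kJ]
  split_ifs <;> simp

end

lemma five_MM : (5 : ℤ) ∣ MM := by
  unfold MM
  refine Dvd.dvd.mul_left ?_ _
  have : (5 : ℕ) ∣ QQ.factorial := Nat.dvd_factorial (by norm_num) (by unfold QQ; omega)
  exact_mod_cast this

lemma Ru_vb5 : ((Ru vb : ℤ) : ZMod 5) ≠ 0 := by
  intro h
  have h0 : Int.castRingHom (ZMod 5) (Ru vb) = 0 := h
  unfold Ru at h0
  rw [sylM0] at h0
  have h1 : (M5).det = 0 := by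
    rw [← mapM0, ← RingHom.mapMatrix_apply, ← RingHom.map_det, h0]
  have h2 : (M5 * N5).det = 1 := by rw [mulN5, Matrix.det_one]
  rw [Matrix.det_mul, h1, zero_mul] at h2
  exact absurd h2 (by decide)

lemma Ru_ne (a : Fin 4 → ℕ) : Ru (uu a) ≠ 0 := by
  intro h
  have h1 : Ru (fun i => Int.castRingHom (ZMod 5) (uu a i)) = 0 := by
    rw [na_Ru, h, map_zero]
  have h2 : (fun i => Int.castRingHom (ZMod 5) (uu a i)) =
      fun i => Int.castRingHom (ZMod 5) (vb i) := by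
    funext i
    have hM : ((MM : ℤ) : ZMod 5) = 0 := (ZMod.intCast_zmod_eq_zero_iff_dvd MM 5).2 (by exact_mod_cast five_MM)
    unfold uu
    simp only [eq_intCast, Int.cast_add, Int.cast_mul, hM, zero_mul, add_zero]
    fin_cases i <;> decide
  rw [h2, na_Ru] at h1
  exact Ru_vb5 h1

lemma bo_sqq {k l : ℕ} {f : ℕ → Tp → ℤ} (hf : BO k f) (hl : k + k ≤ l) :
    BO l (fun m T => f m T ^ 2) := (hf.mul hf hl).congr (fun m T => sq _)

lemma kI2 (u : Fin 4 → ℤ) : kI u 2 = 96 * RN.g0 u + 4 * RN.e2 u ^ 2 := rfl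
lemma kI1 (u : Fin 4 → ℤ) :
    kI u 1 = 48 * RN.h0 u + 6 * RN.h3 u * RN.e3 u + 4 * RN.e2 u * RN.h2 u := rfl
lemma kI0 (u : Fin 4 → ℤ) : kI u 0 = -3 * RN.h3 u * RN.h1 u + RN.h2 u ^ 2 := rfl
lemma kJ4 (u : Fin 4 → ℤ) : kJ u 4 = 576 * RN.e2 u := rfl
lemma kJ3 (u : Fin 4 → ℤ) : kJ u 3 = 288 * RN.h2 u + 1152 * RN.e2 u * RN.g0 u -
    432 * RN.e3 u ^ 2 - 16 * RN.e2 u ^ 3 := rfl
lemma kJ2 (u : Fin 4 → ℤ) : kJ u 2 = 288 * (2 * RN.e2 u * RN.h0 u + 2 * RN.g0 u * RN.h2 u) -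
    36 * RN.h3 u * RN.e2 u * RN.e3 u + 432 * RN.e3 u * RN.h1 u - 27 * RN.h3 u ^ 2 -
    24 * RN.e2 u ^ 2 * RN.h2 u := rfl
lemma kJ1 (u : Fin 4 → ℤ) : kJ u 1 = 288 * RN.h2 u * RN.h0 u +
    9 * RN.h3 u * (2 * RN.e2 u * RN.h1 u - 2 * RN.e3 u * RN.h2 u) - 108 * RN.h1 u ^ 2 -
    54 * RN.g0 u * RN.h3 u ^ 2 - 12 * RN.e2 u * RN.h2 u ^ 2 := rfl
lemma kJ0 (u : Fin 4 → ℤ) : kJ u 0 = 9 * RN.h3 u * RN.h2 u * RN.h1 u -
    27 * RN.h0 u * RN.h3 u ^ 2 - 2 * RN.h2 u ^ 3 := rfl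

lemma be2 : BO 6 (fun _ T => RN.e2 (uu T.1)) := bo_e2 (fun T => uu T.1) bo_u
lemma be3 : BO 9 (fun _ T => RN.e3 (uu T.1)) := bo_e3 (fun T => uu T.1) bo_u
lemma bg0 : BO 12 (fun _ T => RN.g0 (uu T.1)) := bo_g0 (fun T => uu T.1) bo_u
lemma bh3 : BO 15 (fun _ T => RN.h3 (uu T.1)) := bo_h3 (fun T => uu T.1) bo_u
lemma bh2 : BO 18 (fun _ T => RN.h2 (uu T.1)) := bo_h2 (fun T => uu T.1) bo_u
lemma bh1 : BO 21 (fun _ T => RN.h1 (uu T.1)) := bo_h1 (fun T => uu T.1) bo_u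
lemma bh0 : BO 24 (fun _ T => RN.h0 (uu T.1)) := bo_h0 (fun T => uu T.1) bo_u

lemma bo_kI (k : ℕ) : BO 54 (fun _ T => kI (uu T.1) k) := by
  by_cases c3 : k = 3
  · subst c3
    exact BO.const 54 48
  by_cases c2 : k = 2
  · subst c2
    refine ((BO.cmul 96 (bg0.mono (k := 54) (by omega))).add
      (BO.cmul 4 (bo_sqq (l := 54) be2 (by omega)))).congr (fun m T => ?_)
    rw [kI2]
  by_cases c1 : k = 1
  · subst c1
    refine (((BO.cmul 48 (bh0.mono (k := 54) (by omega))).add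
      (BO.cmul 6 (bh3.mul be3 (l := 54) (by omega)))).add
      (BO.cmul 4 (be2.mul bh2 (l := 54) (by omega)))).congr (fun m T => ?_)
    rw [kI1]; ring
  by_cases c0 : k = 0
  · subst c0
    refine ((BO.cmul (-3) (bh3.mul bh1 (l := 54) (by omega))).add
      (bo_sqq (l := 54) bh2 (by omega))).congr (fun m T => ?_)
    rw [kI0]; ring
  · exact (BO.const 54 0).congr (fun m T => by simp [kI, c3, c2, c1, c0])

lemma bo_kJ (k : ℕ) : BO 54 (fun _ T => kJ (uu T.1) k) := by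
  by_cases c4 : k = 4
  · subst c4
    exact (BO.cmul 576 (be2.mono (k := 54) (by omega))).congr (fun m T => by rw [kJ4])
  by_cases c3 : k = 3
  · subst c3
    refine ((((BO.cmul 288 (bh2.mono (k := 54) (by omega))).add
      (BO.cmul 1152 (be2.mul bg0 (l := 54) (by omega)))).sub
      (BO.cmul 432 (bo_sqq (l := 54) be3 (by omega)))).sub
      (BO.cmul 16 (be2.mul (bo_sqq (l := 12) be2 (by omega)) (l := 54) (by omega)))).congr
      (fun m T => ?_)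
    rw [kJ3]; ring
  by_cases c2 : k = 2
  · subst c2
    refine (((((BO.cmul 288 ((BO.cmul 2 (be2.mul bh0 (l := 54) (by omega))).add
      (BO.cmul 2 (bg0.mul bh2 (l := 54) (by omega))))).sub
      (BO.cmul 36 (bh3.mul (be2.mul be3 (l := 15) (by omega)) (l := 54) (by omega)))).add
      (BO.cmul 432 (be3.mul bh1 (l := 54) (by omega)))).sub
      (BO.cmul 27 (bo_sqq (l := 54) bh3 (by omega)))).sub
      (BO.cmul 24 ((bo_sqq (l := 12) be2 (by omega)).mul bh2 (l := 54) (by omega)))).congr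
      (fun m T => ?_)
    rw [kJ2]; ring
  by_cases c1 : k = 1
  · subst c1
    refine (((((BO.cmul 288 (bh2.mul bh0 (l := 54) (by omega))).add
      (BO.cmul 9 (bh3.mul ((BO.cmul 2 (be2.mul bh1 (l := 27) (by omega))).sub
        (BO.cmul 2 (be3.mul bh2 (l := 27) (by omega)))) (l := 54) (by omega)))).sub
      (BO.cmul 108 (bo_sqq (l := 54) bh1 (by omega)))).sub
      (BO.cmul 54 (bg0.mul (bo_sqq (l := 30) bh3 (by omega)) (l := 54) (by omega)))).sub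
      (BO.cmul 12 (be2.mul (bo_sqq (l := 36) bh2 (by omega)) (l := 54) (by omega)))).congr
      (fun m T => ?_)
    rw [kJ1]; ring
  by_cases c0 : k = 0
  · subst c0
    refine (((BO.cmul 9 (bh3.mul (bh2.mul bh1 (l := 39) (by omega)) (l := 54) (by omega))).sub
      (BO.cmul 27 (bh0.mul (bo_sqq (l := 30) bh3 (by omega)) (l := 54) (by omega)))).sub
      (BO.cmul 2 (bh2.mul (bo_sqq (l := 36) bh2 (by omega)) (l := 54) (by omega)))).congr
      (fun m T => ?_)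
    rw [kJ0]; ring
  · exact (BO.const 54 0).congr (fun m T => by simp [kJ, c4, c3, c2, c1, c0])

lemma bo_entry (i j : Fin 7) : BO 54 (fun _ T => syl (pI (uu T.1)) (pJ (uu T.1)) i j) := by
  unfold syl
  simp only [Matrix.of_apply, coI, coJ]
  split_ifs
  · exact bo_kI _
  · exact BO.const _ _
  · exact bo_kJ _
  · exact BO.const _ _

end S53

open S53 S25 in
theorem st_RNZ : ST_RNZ := by
  classical
  choose C hC H using bo_entry
  set K : ℤ := ∑ i, ∑ j, C i j with hK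
  have hCK : ∀ i j, C i j ≤ K := by
    intro i j
    calc C i j ≤ ∑ j', C i j' := Finset.single_le_sum (fun j' _ => hC i j') (Finset.mem_univ j)
      _ ≤ K := Finset.single_le_sum (f := fun i' => ∑ j', C i' j')
          (fun i' _ => Finset.sum_nonneg fun j' _ => hC i' j') (Finset.mem_univ i)
  have hK0 : 0 ≤ K := Finset.sum_nonneg fun i _ => Finset.sum_nonneg fun j _ => hC i j
  refine ⟨(5040 * K ^ 7).toNat + 1, by omega, fun m hm T hT => ⟨Ru_ne T.1, ?_⟩⟩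
  have hm1 : (1 : ℤ) ≤ (m : ℤ) := by exact_mod_cast hm
  have hb : ∀ i j, (AbsoluteValue.abs : AbsoluteValue ℤ ℤ) (RT.syl (pI (uu T.1)) (pJ (uu T.1)) i j) ≤
      K * (m : ℤ) ^ 54 := by
    intro i j
    exact (H i j m hm T hT).trans (mul_le_mul_of_nonneg_right (hCK i j) (by positivity))
  have h1 := Matrix.det_le hb
  rw [Fintype.card_fin] at h1
  have h2 : |Ru (uu T.1)| ≤ 5040 * (K * (m : ℤ) ^ 54) ^ 7 := by
    have h3 : (Nat.factorial 7) • (K * (m : ℤ) ^ 54) ^ 7 = 5040 * (K * (m : ℤ) ^ 54) ^ 7 := by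
      rw [nsmul_eq_mul]; norm_num [Nat.factorial]
    rw [← h3]
    exact h1
  refine h2.trans ?_
  have h4 : 5040 * (K * (m : ℤ) ^ 54) ^ 7 = (5040 * K ^ 7) * (m : ℤ) ^ 378 := by ring
  rw [h4]
  have h5 : (5040 * K ^ 7 : ℤ) ≤ (((5040 * K ^ 7).toNat + 1 : ℕ) : ℤ) := by
    push_cast
    have := Int.self_le_toNat (5040 * K ^ 7)
    linarith
  have h6 : (m : ℤ) ^ 378 ≤ (m : ℤ) ^ 1000 := pow_le_pow_right₀ hm1 (by norm_num)
  exact mul_le_mul h5 h6 (by positivity) (by positivity)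

end Pool.Helper70.RN
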